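import Pool.Agent.H500.ZO.Stm
import Pool.Graph.R_pool_sql_team_seeded_3997aac3.Q182.AR.Base
import Pool.Graph.R_pool_sql_team_seeded_3997aac3.Q225.AR.Fin
import Pool.Graph.R_pool_sql_team_seeded_3997aac3.Q84.AR.Hecke
import Pool.Graph.R_pool_sql_team_seeded_3997aac3.Q84.AR.Frac

set_option autoImplicit false
set_option linter.unusedSectionVars false

/-!
# Project ZO (helper500), part 1b (helper190): finitely many ray class characters separate the
ray classes
-/

namespace Pool.Agent.H190.ZO.ARTb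

open NumberField IsDedekindDomain Pool.Agent.Q92.AR
open Pool.Agent.H500.HC (InRay TotPos)
open Pool.Agent.Q84.AR (dv dv_apply dv_mul dv_prime dv_span)

section
variable {L : Type} [Field L] [NumberField L]

theorem dv_inj {𝔞 𝔟 : Ideal (𝓞 L)} (ha : 𝔞 ≠ 0) (hb : 𝔟 ≠ 0) (h : dv 𝔞 = dv 𝔟) : 𝔞 = 𝔟 := by
  have h1 := FractionalIdeal.finprod_heightOneSpectrum_factorization' (K := L)
    (I := (𝔞 : FractionalIdeal (nonZeroDivisors (𝓞 L)) L)) (FractionalIdeal.coeIdeal_ne_zero.2 ha)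
  have h2 := FractionalIdeal.finprod_heightOneSpectrum_factorization' (K := L)
    (I := (𝔟 : FractionalIdeal (nonZeroDivisors (𝓞 L)) L)) (FractionalIdeal.coeIdeal_ne_zero.2 hb)
  have h3 : (𝔞 : FractionalIdeal (nonZeroDivisors (𝓞 L)) L) = 𝔟 := by
    rw [← h1, ← h2]
    refine finprod_congr fun v => ?_
    rw [← dv_apply, ← dv_apply, h]
  exact FractionalIdeal.coeIdeal_injective h3

open scoped Classical in
/-- the part of a divisor prime to `M` -/
noncomputable def proj (L : Type) [Field L] [NumberField L] (M : ℕ) : Dv L →+ Pr L M :=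
  AddMonoidHom.codRestrict
    (Finsupp.filterAddHom (M := ℤ) (fun v : HeightOneSpectrum (𝓞 L) => (M : 𝓞 L) ∉ v.asIdeal))
    (Pr L M) (fun _ _ hv => Finsupp.filter_apply_neg _ _ (not_not.2 hv))

theorem proj_of_mem {M : ℕ} {D : Dv L} (hD : D ∈ Pr L M) : proj L M D = ⟨D, hD⟩ := by
  classical
  apply Subtype.ext
  show Finsupp.filter _ D = D
  rw [Finsupp.filter_eq_self_iff]
  intro v hv hM
  exact hv (hD v hM)

theorem single_mem {M : ℕ} {w : HeightOneSpectrum (𝓞 L)} (hw : (M : 𝓞 L) ∉ w.asIdeal) (n : ℤ) :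
    (Finsupp.single w n : Dv L) ∈ Pr L M := by
  classical
  intro v hv
  rw [Finsupp.single_apply, if_neg]
  rintro rfl
  exact hw hv

end

theorem main : Pool.Agent.H500.ZO.S_ARTb := by
  intro L _ _ M hM
  classical
  have hfi : (RayD L M).relIndex (Pr L M) ≠ 0 := Pool.Agent.Q225.AR.fin L M hM.ne'
  have hfin : Finite (Pr L M ⧸ (RayD L M).addSubgroupOf (Pr L M)) := by
    have : ((RayD L M).addSubgroupOf (Pr L M)).FiniteIndex := ⟨hfi⟩
    exact AddSubgroup.finite_quotient_of_finiteIndex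
  have h1 : ∀ q : Pr L M ⧸ (RayD L M).addSubgroupOf (Pr L M),
      ∃ φ : Multiplicative (Pr L M ⧸ (RayD L M).addSubgroupOf (Pr L M)) →* ℂˣ,
        q ≠ 0 → φ (Multiplicative.ofAdd q) ≠ 1 := by
    intro q
    by_cases hq : q = 0
    · exact ⟨1, fun h => absurd hq h⟩
    · obtain ⟨φ, hφ⟩ := CommGroup.exists_apply_ne_one_of_hasEnoughRootsOfUnity
        (Multiplicative (Pr L M ⧸ (RayD L M).addSubgroupOf (Pr L M))) ℂ
        (a := Multiplicative.ofAdd q) (fun h => hq (Multiplicative.ofAdd.injective h))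
      exact ⟨φ, fun _ => hφ⟩
  choose φ hφ using h1
  set mk := QuotientAddGroup.mk' ((RayD L M).addSubgroupOf (Pr L M)) with hmk
  let e := (Finite.equivFin (Pr L M ⧸ (RayD L M).addSubgroupOf (Pr L M))).symm
  refine ⟨Nat.card (Pr L M ⧸ (RayD L M).addSubgroupOf (Pr L M)),
    fun i => (MonoidHom.toAdditiveRight (φ (e i))).comp (mk.comp (proj L M)), ?_, ?_⟩
  · intro i x hx
    have h2 : prin x ∈ Pr L M := Pool.Agent.Q182.AR.prin_mem_Pr hx.1
    have h3 : mk (proj L M (prin x)) = 0 := by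
      rw [proj_of_mem h2]
      refine (QuotientAddGroup.eq_zero_iff _).2 ?_
      rw [AddSubgroup.mem_addSubgroupOf]
      exact Pool.Agent.Q182.AR.mem_RayD.2 ⟨x, hx, rfl⟩
    rw [AddMonoidHom.comp_apply, AddMonoidHom.comp_apply, h3, map_zero]
  · intro w w' hw hw' hww
    set q := mk (proj L M (Finsupp.single w 1)) - mk (proj L M (Finsupp.single w' 1)) with hq
    have h2 : q = 0 := by
      by_contra h3
      apply hφ q h3
      have h4 := hww (e.symm q)
      rw [AddMonoidHom.comp_apply, AddMonoidHom.comp_apply, AddMonoidHom.comp_apply,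
        AddMonoidHom.comp_apply, Equiv.apply_symm_apply, ← sub_eq_zero, ← map_sub, ← hq] at h4
      exact h4
    rw [hq, ← map_sub, ← map_sub] at h2
    have hm : (Finsupp.single w 1 - Finsupp.single w' 1 : Dv L) ∈ Pr L M :=
      (Pr L M).sub_mem (single_mem hw 1) (single_mem hw' 1)
    rw [proj_of_mem hm] at h2
    have h3 := (QuotientAddGroup.eq_zero_iff _).1 h2
    rw [AddSubgroup.mem_addSubgroupOf] at h3
    obtain ⟨x, hx, hxe⟩ := Pool.Agent.Q182.AR.mem_RayD.1 h3
    obtain ⟨a, b, ha, hb, haM, hbM, hap, hbp, hab⟩ := Pool.Agent.Q84.AR.frac L M hM.ne' x hx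
    refine ⟨b, a, ⟨hb, hbM, hbp⟩, ⟨ha, haM, hap⟩, ?_⟩
    have ha' : (a : L) ≠ 0 := by exact_mod_cast ha
    have hb' : (b : L) ≠ 0 := by exact_mod_cast hb
    have ha2 : (Ideal.span {a} : Ideal (𝓞 L)) ≠ ⊥ := by
      rw [Ne, Ideal.span_singleton_eq_bot]; exact ha
    have hb2 : (Ideal.span {b} : Ideal (𝓞 L)) ≠ ⊥ := by
      rw [Ne, Ideal.span_singleton_eq_bot]; exact hb
    have e1 : dv (Ideal.span {a}) = prin (Units.mk0 (a : L) ha') := dv_span _ rfl
    have e2 : dv (Ideal.span {b}) = prin (Units.mk0 (b : L) hb') := dv_span _ rfl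
    have e3 : Units.mk0 (a : L) ha' = x * Units.mk0 (b : L) hb' := by
      apply Units.ext
      rw [Units.val_mul, Units.val_mk0, Units.val_mk0, hab]
    refine dv_inj (mul_ne_zero w.ne_bot hb2) (mul_ne_zero w'.ne_bot ha2) ?_
    have hxe' : prin x = Finsupp.single w 1 - Finsupp.single w' 1 := hxe
    rw [dv_mul w.ne_bot hb2, dv_mul w'.ne_bot ha2, dv_prime, dv_prime, e1, e2, e3, prin_mul, hxe',
      ← add_assoc, add_sub_cancel]

end Pool.Agent.H190.ZO.ARTb
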